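import Pool.Agent.H65.MH.Cone

/-!
# Solvability of the Markoff-Hurwitz equations `x₁² + ... + xₙ² - a x₁ ⋯ xₙ = b`

For every `n ≥ 3` necessary and sufficient conditions on `a` and `b`. The question MP_aff84d_nt is
the case `n = 3`. The definitions are in `Pool.Agent.H65.MH.Defs`, the proof (Vieta descent) is in
`Pool.Agent.H65.MH.Main` and `Pool.Agent.H65.MH.Cone`.
-/

set_option autoImplicit false

namespace Pool.Agent.Results.MP_aff84d_nt.MarkoffHurwitz

open Finset Pool.Agent.H65.MH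

/-- **Main result.** The first clause says that `Solvable 3` is the question. The second clause gives,
for every number `n ≥ 3` of variables, a necessary and sufficient condition for all `a` and `b`,
sharper ones for `b ≥ 0` and for `b < 0`, conditions with a number of tests that depends on `n` and `K`
only for `0 ≤ b < K |a|` and for `- K |a| < b < 0`, `|a| > 2 n K`; the exact answer for
`0 ≤ b < n + |a|` (sums of `n - 1` squares) and for `n + 6 - 4 |a| < b < 0` (`a² - 4 (n - 1 - b)` is a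
square); the bound `1 ≤ |a| ≤ n - b` for solvable pairs with `b < 0`; and two families of solvable
pairs, the second of which is the end `b = n + 6 - 4 |a|` of the range. The third clause: for `n ≥ 5`
all pairs with `b ≥ 0` are solvable. -/
theorem result :
    (∀ a b : ℤ, Solvable 3 a b ↔
      ∃ x y z : ℤ, x ^ 2 + y ^ 2 + z ^ 2 - a * x * y * z = b) ∧
    (∀ n : ℕ, 3 ≤ n → ∀ a b : ℤ,
      (Solvable n a b ↔ CritDisc n a b) ∧
      (0 ≤ b → (Solvable n a b ↔ CritNonneg n a b)) ∧
      (b < 0 → (Solvable n a b ↔ CritNeg n a b)) ∧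
      (∀ K : ℕ, 0 ≤ b → b < K * |a| → (Solvable n a b ↔ SumSq (n - 1) b ∨ SmallPos n K a b)) ∧
      (∀ K : ℕ, b < 0 → -(K * |a|) < b → 2 * n * K < |a| →
        (Solvable n a b ↔ SmallDisc n K a b)) ∧
      (0 ≤ b → b < n + |a| → (Solvable n a b ↔ SumSq (n - 1) b)) ∧
      (n + 6 - 4 * |a| < b → b < 0 →
        (Solvable n a b ↔ IsSquare (a ^ 2 - 4 * (n - 1 - b)))) ∧
      (b < 0 → Solvable n a b → 1 ≤ |a| ∧ |a| ≤ n - b) ∧
      (IsSquare (a ^ 2 - 4 * (n - 1 - b)) → Solvable n a b) ∧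
      Solvable n a (n + 6 - 4 * |a|)) ∧
    ∀ n : ℕ, 5 ≤ n → ∀ a b : ℤ, 0 ≤ b → Solvable n a b := by
  refine ⟨fun a b => ⟨?_, ?_⟩, fun n hn a b => ⟨disc_iff hn a b, nonneg_iff hn,
    fun hb => ⟨fun h => ?_, ?_⟩, fun K => cone_nonneg hn, fun K => cone_neg hn, small_iff hn, fun hab hb => ⟨fun h => ?_, solvable_of_isSquare (by omega)⟩,
    fun hb h => ?_, solvable_of_isSquare (by omega), solvable_two_two (by omega) a⟩,
    fun n hn a b hb => ?_⟩
  · rintro ⟨x, hx⟩
    refine ⟨x 0, x 1, x 2, ?_⟩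
    rw [Fin.sum_univ_three, Fin.prod_univ_three] at hx
    rw [← hx]; ring
  · rintro ⟨x, y, z, h⟩
    refine ⟨![x, y, z], ?_⟩
    rw [Fin.sum_univ_three, Fin.prod_univ_three, ← h]
    simp
    ring
  · obtain ⟨y, m, h1⟩ := neg_reduced hn hb h
    exact ⟨y, m, h1, (neg_bound (by omega) hb h1).1⟩
  · rintro ⟨x, m, h, -⟩
    have : NeZero n := ⟨by omega⟩
    exact solvable_of_reduced h
  · obtain ⟨y, m, h1⟩ := neg_reduced hn hb h
    exact wide (by omega) hb h1 hab
  · obtain ⟨y, m, h1⟩ := neg_reduced hn hb h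
    exact (neg_bound (by omega) hb h1).2
  · exact (nonneg_iff (by omega) hb).2 (sumSq_crit (by omega) a (sumSq_of_four (by omega) hb))

end Pool.Agent.Results.MP_aff84d_nt.MarkoffHurwitz
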